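import Mathlib
import Pool.Agent.Helper332.SAD.Statements

/-!
# Compact continuous images of `C_p(K)` for scattered and left-separated compact spaces

Question 2 is independent of ZFC, and the statement of Question 1 is not a theorem of ZFC.
-/

set_option autoImplicit false

namespace Pool.Agent.Results.MP_b07c92_gt.Independence

open Cardinal Set
open Pool.Agent.Helper332.SAD (SADHolds StronglyAlmostDisjoint CH)
open Pool.Agent.Helper332.SADSpace (Scattered LeftSeparated)
open Pool.Agent.Helper292.ForceCH (OmegaOnePreserved CHHolds)

/-- (1) Some forcing notion forces that `ω₁` is preserved and that there are `2^{ω₁}` strongly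
almost disjoint functions `ω₁ → ω`. (2) If there are `2^{ω₁}` strongly almost disjoint functions
`ω₁ → ω`, then there is a compact Hausdorff space `K`, scattered and left-separated, of size at
most continuum, such that `C_p(K)` maps continuously onto a non-metrizable compact space.
(3) Some forcing notion forces that `ω₁` is preserved and that the continuum hypothesis holds.
(4) Under the continuum hypothesis every compact continuous image of `C_p(K)` is metrizable, for
every left-separated compact space `K`. -/
theorem result :
    (∃ (P : Type) (_ : Preorder P) (I : Type), Nonempty P ∧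
      ∀ p : P, p ∈ OmegaOnePreserved P ∧ p ∈ SADHolds P I) ∧
    (StronglyAlmostDisjoint →
      ∃ (K : Type) (_ : TopologicalSpace K), CompactSpace K ∧ T2Space K ∧ Scattered K ∧
        LeftSeparated K ∧ #K ≤ 𝔠 ∧
        ∃ (Y : Type) (_ : TopologicalSpace Y) (φ : {g : K → ℝ // Continuous g} → Y),
          CompactSpace Y ∧ T2Space Y ∧ Continuous φ ∧ Function.Surjective φ ∧
          ¬ TopologicalSpace.MetrizableSpace Y) ∧
    (∃ (P : Type) (_ : Preorder P), Nonempty P ∧
      ∀ p : P, p ∈ OmegaOnePreserved P ∧ p ∈ CHHolds P) ∧
    (CH → ∀ (K : Type) [TopologicalSpace K] [CompactSpace K] [T2Space K], LeftSeparated K →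
      ∀ (Y : Type) [TopologicalSpace Y] [CompactSpace Y] [T2Space Y]
        (φ : {g : K → ℝ // Continuous g} → Y), Continuous φ → Function.Surjective φ →
        TopologicalSpace.MetrizableSpace Y) := by
  refine ⟨Pool.Agent.Helper332.SAD.exists_forcing, ?_, ?_, ?_⟩
  · rintro ⟨I, f, e, hf, he⟩
    exact Pool.Agent.Helper332.SADSpace.space_of_sad I f e hf he
  · obtain ⟨P, hP, hne, h⟩ := Pool.Agent.Helper292.ForceCH.exists_forcing
    exact ⟨P, hP, hne, fun p => ⟨(h p).1, (h p).2.2⟩⟩
  · intro h K _ _ _ hK Y _ _ _ φ hφ hs
    exact Pool.Agent.Helper332.SADSpace.metrizable_of_left h K hK Y φ hφ hs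

end Pool.Agent.Results.MP_b07c92_gt.Independence
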